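import Pool.Agent.Work.MP_31144c_an.H.Sig

/-! The characterisation for arbitrary gauges: reduction to the lower envelope. -/

namespace Pool.Agent.Work.MP_31144c_an.H

open Set Filter Topology MeasureTheory Complex Metric
open scoped ENNReal

variable {g : ℝ → ℝ} {r₀ : ℝ}

lemma env_bdd (r : ℝ) : BddBelow ((fun s => max (g s) 0) '' Ioc 0 r) :=
  ⟨0, by rintro _ ⟨s, -, rfl⟩; exact le_max_right _ _⟩

lemma env_nonneg (r : ℝ) : 0 ≤ env g r :=
  Real.sInf_nonneg (by rintro _ ⟨s, -, rfl⟩; exact le_max_right _ _)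

lemma env_le {r : ℝ} (h : 0 < r) : env g r ≤ max (g r) 0 :=
  csInf_le (env_bdd r) ⟨r, ⟨h, le_rfl⟩, rfl⟩

lemma env_mono {r s : ℝ} (h : 0 < r) (hrs : r ≤ s) : env g s ≤ env g r :=
  csInf_le_csInf (env_bdd s) ⟨_, r, ⟨h, le_rfl⟩, rfl⟩ (image_mono (Ioc_subset_Ioc_right hrs))

lemma env_anti (r₀ : ℝ) : AntitoneOn (env g) (Ioo 0 r₀) := fun _ hr _ _ h => env_mono hr.1 h

lemma env_ex {r : ℝ} (h : 0 < r) : ∃ s, 0 < s ∧ s ≤ r ∧ g s ≤ env g r + 1 := by
  obtain ⟨_, ⟨s, hs, rfl⟩, h1⟩ := exists_lt_of_csInf_lt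
    (s := (fun s => max (g s) 0) '' Ioc 0 r) ⟨_, r, ⟨h, le_rfl⟩, rfl⟩ (lt_add_one _)
  exact ⟨s, hs.1, hs.2, (le_max_left _ _).trans h1.le⟩

lemma haus_env : haus (env g) ≤ haus g := by
  refine Measure.mkMetric_mono (Eventually.of_forall fun d => ?_)
  rcases (ENNReal.toReal_nonneg (a := d)).eq_or_lt with h | h
  · simp only [← h]
    simp
  · refine (ENNReal.ofReal_le_ofReal (mul_le_mul_of_nonneg_left (env_le h) (sq_nonneg _))).trans ?_
    rcases le_total (g d.toReal) 0 with h1 | h1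
    · rw [max_eq_right h1]
      simp
    · rw [max_eq_left h1]

lemma cover_one (g : ℝ → ℝ) (t : Set ℂ) (ht : ediam t ≠ ⊤) : ∃ u : ℤ × ℤ → Set ℂ,
    t ⊆ ⋃ p, u p ∧ (∀ p, ediam (u p) ≤ ediam t) ∧
      ∑' p, ENNReal.ofReal ((ediam (u p)).toReal ^ 2 * g (ediam (u p)).toReal) ≤
        81 * ENNReal.ofReal ((ediam t).toReal ^ 2 * (env g (ediam t).toReal + 1)) := by
  classical
  rcases (ENNReal.toReal_nonneg (a := ediam t)).eq_or_lt with h | h
  · refine ⟨fun _ => t, subset_iUnion (fun _ : ℤ × ℤ => t) 0, fun _ => le_rfl, ?_⟩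
    simp only [← h]
    simp
  obtain ⟨x, hx⟩ : t.Nonempty := by
    rw [nonempty_iff_ne_empty]
    rintro rfl
    simp at h
  have hb : Bornology.IsBounded t := isBounded_iff_ediam_ne_top.2 ht
  have hz : ∀ z ∈ t, ‖z - x‖ ≤ (ediam t).toReal := fun z hz => by
    rw [← dist_eq_norm]
    exact dist_le_diam_of_mem hb hz hx
  have he : ediam t = ENNReal.ofReal (ediam t).toReal := (ENNReal.ofReal_toReal ht).symm
  generalize (ediam t).toReal = d at h hz he
  obtain ⟨s, hs, hsd, hg⟩ := env_ex (g := g) h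
  obtain ⟨K, hK1, hK2⟩ : ∃ K : ℕ, 2 * d / s + 1 ≤ K ∧ (K : ℝ) ≤ 2 * d / s + 2 := by
    refine ⟨⌈2 * d / s⌉₊ + 1, ?_, ?_⟩
    · push_cast
      linarith only [Nat.le_ceil (2 * d / s)]
    · push_cast
      linarith only [Nat.ceil_lt_add_one (show 0 ≤ 2 * d / s by positivity)]
  have hB : ∀ c : ℂ, (ediam (closedBall c (s / 2))).toReal = s := fun c => by
    have := Metric.diam_closedBall_eq c (show 0 ≤ s / 2 by positivity)
    rw [show 2 * (s / 2) = s by ring] at this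
    exact this
  have hround : ∀ y : ℝ, |y| ≤ d → round (2 * y / s) ∈ Finset.Icc (-(K : ℤ)) K ∧
      |y - s / 2 * round (2 * y / s)| ≤ s / 4 := fun y hy => by
    have h1 := abs_le.1 (abs_sub_round (2 * y / s))
    have h2 := abs_le.1 hy
    have h3 : 2 * y / s ≤ 2 * d / s := by gcongr; exact h2.2
    have h4 : -(2 * d / s) ≤ 2 * y / s := by
      rw [← neg_div]
      gcongr
      linarith only [h2.1]
    refine ⟨Finset.mem_Icc.2 ⟨?_, ?_⟩, ?_⟩
    · have : (-(K : ℝ)) ≤ (round (2 * y / s) : ℝ) := by linarith only [h1.2, h4, hK1]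
      exact_mod_cast this
    · have : (round (2 * y / s) : ℝ) ≤ K := by linarith only [h1.1, h3, hK1]
      exact_mod_cast this
    · have h5 : y - s / 2 * round (2 * y / s) = s / 2 * (2 * y / s - round (2 * y / s)) := by
        field_simp
      rw [h5, abs_mul, abs_of_pos (show 0 < s / 2 by positivity)]
      nlinarith only [abs_sub_round (2 * y / s), hs]
  refine ⟨fun p => if p ∈ Finset.Icc (-(K : ℤ)) K ×ˢ Finset.Icc (-(K : ℤ)) K then
    closedBall (x + (((s / 2 * p.1 : ℝ) : ℂ) + ((s / 2 * p.2 : ℝ) : ℂ) * I)) (s / 2) else ∅,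
    fun z hzt => ?_, fun p => ?_, ?_⟩
  · obtain ⟨a1, a2⟩ := hround (z - x).re ((abs_re_le_norm _).trans (hz z hzt))
    obtain ⟨b1, b2⟩ := hround (z - x).im ((abs_im_le_norm _).trans (hz z hzt))
    refine mem_iUnion.2 ⟨(round (2 * (z - x).re / s), round (2 * (z - x).im / s)), ?_⟩
    rw [if_pos (Finset.mem_product.2 ⟨a1, b1⟩), mem_closedBall, dist_eq_norm, ← sub_sub]
    refine (norm_le_abs_re_add_abs_im _).trans ?_
    simp only [sub_re (z - x), sub_im (z - x), add_re, add_im, mul_re, mul_im, ofReal_re, ofReal_im,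
      I_re, I_im, mul_zero, mul_one, add_zero, zero_add, sub_self]
    linarith only [a2, b2]
  · beta_reduce
    split_ifs
    · rw [he, ← ENNReal.ofReal_toReal (isBounded_iff_ediam_ne_top.1 isBounded_closedBall), hB]
      exact ENNReal.ofReal_le_ofReal hsd
    · simp
  · rw [tsum_eq_sum (s := Finset.Icc (-(K : ℤ)) K ×ˢ Finset.Icc (-(K : ℤ)) K)
      (fun p hp => by simp only [if_neg hp]; simp)]
    rw [Finset.sum_congr rfl (g := fun _ => ENNReal.ofReal (s ^ 2 * g s))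
      (fun p hp => by simp only [if_pos hp, hB]), Finset.sum_const, Finset.card_product,
      Int.card_Icc, show ((K : ℤ) + 1 - -(K : ℤ)).toNat = 2 * K + 1 by omega, nsmul_eq_mul,
      ← ENNReal.ofReal_natCast, ← ENNReal.ofReal_mul (by positivity),
      ← ENNReal.ofReal_ofNat 81, ← ENNReal.ofReal_mul (by norm_num)]
    refine ENNReal.ofReal_le_ofReal ?_
    have h1 : (2 * (K : ℝ) + 1) * s ≤ 9 * d := by
      have : (K : ℝ) * s ≤ 2 * d + 2 * s := by
        have := mul_le_mul_of_nonneg_right hK2 hs.le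
        rwa [add_mul, div_mul_cancel₀ _ hs.ne'] at this
      linarith only [this, hsd]
    have h2 : ((2 * (K : ℝ) + 1) * s) ^ 2 ≤ (9 * d) ^ 2 := by gcongr
    have h3 : 0 ≤ env g d + 1 := by linarith only [env_nonneg (g := g) d]
    push_cast
    calc (2 * (K : ℝ) + 1) * (2 * K + 1) * (s ^ 2 * g s) = ((2 * (K : ℝ) + 1) * s) ^ 2 * g s := by
          ring
      _ ≤ ((2 * (K : ℝ) + 1) * s) ^ 2 * (env g d + 1) := by gcongr
      _ ≤ (9 * d) ^ 2 * (env g d + 1) := by gcongr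
      _ = 81 * (d ^ 2 * (env g d + 1)) := by ring

lemma haus_null {A : Set ℂ} (h : haus (fun r => env g r + 1) A = 0) : haus g A = 0 := by
  have key : ∀ k : ℕ, ∃ u : ℕ × (ℤ × ℤ) → Set ℂ, A ⊆ ⋃ p, u p ∧
      (∀ p, ediam (u p) ≤ ((k + 1 : ℕ) : ℝ≥0∞)⁻¹) ∧
      ∑' p, ENNReal.ofReal ((ediam (u p)).toReal ^ 2 * g (ediam (u p)).toReal) ≤
        81 * ((k + 1 : ℕ) : ℝ≥0∞)⁻¹ := by
    intro k
    have hk : 0 < ((k + 1 : ℕ) : ℝ≥0∞)⁻¹ := ENNReal.inv_pos.2 (ENNReal.natCast_ne_top _)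
    have hk' : ((k + 1 : ℕ) : ℝ≥0∞)⁻¹ ≠ ⊤ := ENNReal.inv_ne_top.2 (by exact_mod_cast k.succ_ne_zero)
    rw [haus, Measure.mkMetric_apply] at h
    have h1 := ((le_iSup₂_of_le _ hk le_rfl).trans h.le).trans_lt hk
    simp only [iInf_lt_iff] at h1
    obtain ⟨t, hc, hd, hs⟩ := h1
    choose u hu1 hu2 hu3 using fun n => cover_one g (t n) (ne_top_of_le_ne_top hk' (hd n))
    refine ⟨fun p => u p.1 p.2, fun z hz => ?_, fun p => (hu2 p.1 p.2).trans (hd p.1), ?_⟩
    · obtain ⟨n, hn⟩ := mem_iUnion.1 (hc hz)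
      obtain ⟨p, hp⟩ := mem_iUnion.1 (hu1 n hn)
      exact mem_iUnion.2 ⟨(n, p), hp⟩
    · rw [ENNReal.tsum_prod']
      refine (ENNReal.tsum_le_tsum hu3).trans ?_
      rw [ENNReal.tsum_mul_left]
      refine mul_le_mul_right ((ENNReal.tsum_le_tsum fun n => ?_).trans hs.le) _
      rcases (t n).eq_empty_or_nonempty with h2 | h2
      · simp [h2]
      · exact le_iSup_of_le h2 le_rfl
  choose u hu1 hu2 hu3 using key
  have hl : Tendsto (fun k : ℕ => ((k + 1 : ℕ) : ℝ≥0∞)⁻¹) atTop (𝓝 0) :=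
    ENNReal.tendsto_inv_nat_nhds_zero.comp (tendsto_add_atTop_nat 1)
  refine le_antisymm ((Measure.mkMetric_le_liminf_tsum A _ hl u (Eventually.of_forall hu2)
    (Eventually.of_forall hu1) _).trans ?_) zero_le
  have hl' : Tendsto (fun k : ℕ => 81 * ((k + 1 : ℕ) : ℝ≥0∞)⁻¹) atTop (𝓝 0) := by
    simpa using ENNReal.Tendsto.const_mul (a := 81) hl (Or.inr (by norm_num))
  exact (liminf_le_liminf (Eventually.of_forall hu3)).trans hl'.liminf_eq.le

lemma test_of_le {φ ψ : ℝ → ℝ} (h0 : 0 < r₀) (h1 : r₀ < 1) (ha : AntitoneOn ψ (Ioo 0 r₀))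
    (hle : ∀ r ∈ Ioo 0 r₀, φ r ≤ ψ r + 1) {C : ℝ} (hC : 0 < C)
    (h : IntegrableOn (fun r => Real.exp (-(C * φ r / Real.log (1 / r))) /
      (r * Real.log (1 / r))) (Ioo 0 r₀)) :
    IntegrableOn (fun r => Real.exp (-(C * ψ r / Real.log (1 / r))) /
      (r * Real.log (1 / r))) (Ioo 0 r₀) := by
  have hg := aemeasurable_restrict_of_antitoneOn (μ := volume) measurableSet_Ioo ha
  refine Integrable.mono' (h.const_mul (Real.exp (C / Real.log (1 / r₀))))
    (AEMeasurable.aestronglyMeasurable (by fun_prop)) ?_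
  filter_upwards [ae_restrict_mem measurableSet_Ioo] with r hr
  have h4 := hr.1
  have h5 := G.Fin_pos h4 (hr.2.trans h1)
  have h6 := G.Fin_pos h0 h1
  have h7 := G.Fin_le h4 hr.2.le
  rw [Real.norm_of_nonneg (by positivity), ← mul_div_assoc, ← Real.exp_add]
  refine div_le_div_of_nonneg_right (Real.exp_le_exp.2 ?_) (by positivity)
  have h8 : C / Real.log (1 / r) ≤ C / Real.log (1 / r₀) := by gcongr
  have h9 : C * φ r / Real.log (1 / r) ≤ C * (ψ r + 1) / Real.log (1 / r) := by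
    gcongr
    exact hle r hr
  rw [mul_add, add_div, mul_one] at h9
  linarith only [h8, h9]

theorem all_gauges (g : ℝ → ℝ) (h0 : 0 < r₀) (h1 : r₀ < 1) : List.TFAE [
      ∃ C : ℝ, 0 < C ∧ IntegrableOn (fun r => Real.exp (-(C * env g r / Real.log (1 / r))) /
        (r * Real.log (1 / r))) (Ioo 0 r₀),
      Huge g,
      ∀ f : ℂ → ℂ, DifferentiableOn ℂ f (ball 0 1) → ∀ᵐ θ : ℝ, TypeA f (exp (θ * I)) ∨
        ∃ C δ : ℝ, haus g (vals f (exp (θ * I)) (stolz (exp (θ * I)) C δ)) ≠ 0,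
      ¬ ∃ f : ℂ → ℂ, DifferentiableOn ℂ f (ball 0 1) ∧ ∀ᵐ θ : ℝ, ¬ TypeA f (exp (θ * I)) ∧
        ∀ C δ : ℝ, haus g (vals f (exp (θ * I)) (stolz (exp (θ * I)) C δ)) = 0 ∧
          volume (vals f (exp (θ * I)) (stolz (exp (θ * I)) C δ)) = 0] := by
  tfae_have 1 → 2 := fun ⟨C, hC, hs⟩ => by
    by_cases hz : ∃ r ∈ Ioo 0 r₀, 0 < env g r
    · obtain ⟨r, hr, hp⟩ := hz
      have hp' : ∀ s ∈ Ioo 0 r, 0 < env g s := fun s hs' => hp.trans_le (env_mono hs'.1 hs'.2.le)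
      obtain ⟨C', hC', hs'⟩ := (G.disc hr.1 (hr.2.trans h1) (env_anti r) hp').1
        ⟨C, hC, hs.mono_set (Ioo_subset_Ioo_right hr.2.le)⟩
      exact fun f hf => (G.Sig_huge hr.1 (env_anti r) hp' hC' hs' f hf).mono fun θ h2 =>
        h2.imp_right fun h3 C δ hC hδ U hU hne A hA =>
          h3 C δ hC hδ U hU hne A fun n => ne_top_of_le_ne_top (hA n) (haus_env _)
    · push Not at hz
      have hl : Tendsto (fun r : ℝ => Real.log (1 / r)) (𝓝[>] 0) atTop := by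
        simp only [one_div]
        exact Real.tendsto_log_atTop.comp tendsto_inv_nhdsGT_zero
      have hL := hl.atTop_mul_atTop₀ (Real.tendsto_log_atTop.comp (Real.tendsto_log_atTop.comp hl))
      have hT := (G.exact_gauge (g := fun _ => 1) h0 h1 (fun _ _ _ _ _ => le_rfl)
        (fun _ _ => one_pos)).out 0 3
      have h2 := hT.1 (Exists.intro C ⟨hC, test_of_le h0 h1 (fun _ _ _ _ _ => le_rfl)
        (fun r hr => by linarith only [hz r hr]) hC hs⟩)
      exact (h2 (partB (tendsto_const_nhds.div_atTop hL))).elim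
  tfae_have 2 → 3 := fun h f hf => (h f hf).mono fun θ h1 => h1.imp_right fun h2 =>
    ⟨2, 1, fun h3 => h2 2 1 (by norm_num) one_pos univ isOpen_univ univ_nonempty (fun _ => _)
      (fun _ => h3 ▸ ENNReal.zero_ne_top) (inter_subset_left.trans (subset_iUnion
        (fun _ : ℕ => vals f (exp (θ * I)) (stolz (exp (θ * I)) 2 1)) 0))⟩
  tfae_have 3 → 4 := fun h ⟨f, hf, h1⟩ => by
    obtain ⟨θ, h2, h3⟩ := ((h f hf).and h1).exists
    obtain ⟨C, δ, h4⟩ := h2.resolve_left h3.1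
    exact h4 (h3.2 C δ).1
  tfae_have 4 → 1 := fun h => by
    have hT := (G.exact_gauge (g := fun r => env g r + 1) h0 h1
      (fun r hr s _ hrs => by linarith only [env_mono (g := g) hr.1 hrs])
      (fun r _ => by linarith only [env_nonneg (g := g) r])).out 3 0
    obtain ⟨C, hC, hs⟩ := hT.1 (by
      rintro ⟨f, hf, h2⟩
      exact h ⟨f, hf, h2.mono fun θ h3 =>
        ⟨h3.1, fun C δ => ⟨haus_null (h3.2 C δ).1, (h3.2 C δ).2⟩⟩⟩)
    exact ⟨C, hC, test_of_le h0 h1 (env_anti r₀) (fun _ _ => le_rfl) hC hs⟩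
  tfae_finish

end Pool.Agent.Work.MP_31144c_an.H
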