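import Pool.Agent.Work.MP_31144c_an.Defs

namespace Pool.Agent.Work.MP_31144c_an

open MeasureTheory

/-- The lower envelope `r ↦ inf {max (g s) 0 : 0 < s ≤ r}`. -/
noncomputable def env (g : ℝ → ℝ) (r : ℝ) : ℝ := sInf ((fun s => max (g s) 0) '' Set.Ioc 0 r)

/-- For every `f` analytic in the disc, almost every boundary point is of type (a) or, for every
Stolz angle `S`, the set `V(f, P, S)` has non-σ-finite measure inside every nonempty open set. -/
def Huge (g : ℝ → ℝ) : Prop :=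
  ∀ f : ℂ → ℂ, DifferentiableOn ℂ f (Metric.ball 0 1) → ∀ᵐ θ : ℝ,
    TypeA f (Complex.exp (θ * Complex.I)) ∨ ∀ C δ : ℝ, 1 < C → 0 < δ → ∀ U : Set ℂ, IsOpen U →
      U.Nonempty → ∀ A : ℕ → Set ℂ, (∀ n, haus g (A n) ≠ ⊤) →
        ¬ vals f (Complex.exp (θ * Complex.I)) (stolz (Complex.exp (θ * Complex.I)) C δ) ∩ U ⊆
          ⋃ n, A n

end Pool.Agent.Work.MP_31144c_an
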