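import Pool.Agent.Work.MP_31144c_an.G.Fin
import Pool.Agent.Work.MP_31144c_an.H.Defs

/-! Non-σ-finiteness: the construction of the measure gains a factor at every step. -/

namespace Pool.Agent.Work.MP_31144c_an.G

open Set Filter Topology MeasureTheory Complex Metric
open scoped ENNReal

variable {G : ℕ → ℝ} {g : ℝ → ℝ} {l : ℕ} {m₀ : ℝ≥0∞}

lemma Sig_le (μ : OuterMeasure ℂ) (h0 : Tendsto (fun n => G n / 4 ^ n) atTop (𝓝 0))
    (hp : ∀ n, 0 ≤ G n) (hg : ∀ n, l ≤ n → ∀ d ∈ Ioc (0 : ℝ) (1 / 2 ^ n), G n ≤ g d)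
    (up : ∀ n, l ≤ n → ∀ x, μ (ball x (2 / 2 ^ n)) ≤ 25 * ENNReal.ofReal (G n / 4 ^ n))
    (B : Set ℂ) : μ B ≤ 100 * haus g B := by
  have h3 : μ ≤ OuterMeasure.mkMetric ((100 : ℝ≥0∞) •
      fun d : ENNReal => ENNReal.ofReal (d.toReal ^ 2 * g d.toReal)) := by
    refine OuterMeasure.le_mkMetric _ μ (ENNReal.ofReal ((1 / 2) ^ l))
      (ENNReal.ofReal_pos.2 (by positivity)) fun A hA => ?_
    rcases A.eq_empty_or_nonempty with rfl | ⟨p, hp'⟩
    · simp
    have h4 : ediam A ≠ ⊤ := ne_top_of_le_ne_top ENNReal.ofReal_ne_top hA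
    have h5 : (ediam A).toReal ≤ (1 / 2) ^ l := ENNReal.toReal_le_of_le_ofReal (by positivity) hA
    have h6 : ∀ n, l ≤ n → (ediam A).toReal ≤ (1 / 2) ^ n →
        μ A ≤ 25 * ENNReal.ofReal (G n / 4 ^ n) := fun n hn hd => by
      refine (measure_mono fun y hy => ?_).trans (up n hn p)
      refine ((dist_le_diam_of_mem' h4 hy hp').trans hd).trans_lt ?_
      rw [one_div_pow]
      gcongr
      exact one_lt_two
    rw [Pi.smul_apply, smul_eq_mul]
    generalize (ediam A).toReal = d at h5 h6 ⊢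
    rcases le_or_gt d 0 with hd | hd
    · have := ENNReal.Tendsto.const_mul (a := 25) (ENNReal.tendsto_ofReal h0) (by simp)
      refine (ge_of_tendsto this ?_).trans (by simp)
      filter_upwards [eventually_ge_atTop l] with n hn using h6 n hn (hd.trans (by positivity))
    · obtain ⟨n, n1, n2⟩ := exists_nat_pow_near_of_lt_one hd
        (h5.trans (pow_le_one₀ (by norm_num) (by norm_num))) one_half_pos one_half_lt_one
      have hn : l ≤ n := Nat.lt_succ_iff.1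
        ((pow_lt_pow_iff_right_of_lt_one₀ one_half_pos one_half_lt_one).1 (n1.trans_le h5))
      refine (h6 n hn n2).trans ?_
      rw [show (100 : ℝ≥0∞) = 25 * ENNReal.ofReal 4 by norm_num, mul_assoc,
        ← ENNReal.ofReal_mul zero_le_four]
      refine mul_le_mul_right (ENNReal.ofReal_le_ofReal ?_) _
      have h7 := hg n hn d ⟨hd, one_div_pow (2 : ℝ) n ▸ n2⟩
      have h8 : (1 : ℝ) / 4 ^ n ≤ 4 * d ^ 2 := by
        have := pow_le_pow_left₀ (by positivity) n1.le 2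
        rw [← pow_mul, mul_comm, pow_mul, pow_succ, show ((1 : ℝ) / 2) ^ 2 = 1 / 4 by norm_num,
          one_div_pow] at this
        linarith
      rw [← mul_assoc, div_eq_mul_one_div, mul_comm]
      exact mul_le_mul h8 h7 (hp n) (by positivity)
  rw [OuterMeasure.mkMetric_smul _ (by simp) (by simp)] at h3
  have h4 := h3 B
  rw [smul_apply, OuterMeasure.coe_mkMetric, smul_eq_mul] at h4
  exact h4

lemma Sig_px {G' : ℕ → ℝ} {O : Set ℂ} {c : ℝ} (hc : 0 < c) (hX : PX G O)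
    (he : ∀ᶠ n in atTop, G' n = G n / c) : PX G' O := by
  intro M
  obtain ⟨k, hk⟩ := eventually_atTop.1 he
  have e : ∀ x y : ℝ, ENNReal.ofReal (1 / c) * ENNReal.ofReal (x / y) =
      ENNReal.ofReal (x / c / y) := fun x y => by
    rw [← ENNReal.ofReal_mul (by positivity)]
    congr 1
    ring
  filter_upwards [hX (M * c), eventually_ge_atTop k] with n hl hkl q
  obtain ⟨w, hw, hm⟩ := hl q
  refine ⟨fun x => ENNReal.ofReal (1 / c) * w x, ⟨hw.meas.const_mul _,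
    fun x hx => hw.supp x (right_ne_zero_of_mul hx), fun m hn q' => ?_⟩, ?_⟩
  · rw [lintegral_const_mul _ hw.meas, hk m (hkl.trans hn), ← e]
    exact mul_le_mul_right (hw.adm m hn q') _
  · rw [lintegral_const_mul _ hw.meas]
    refine le_trans (le_of_eq ?_) (mul_le_mul_right hm _)
    rw [e, mul_div_cancel_right₀ _ hc.ne']

lemma Sig_bd (ht : Tendsto G atTop atTop) {w : ℂ → ℝ≥0∞} {N : ℕ} (hw : ∀ x, w x ≤ N) {c : ℝ}
    (hc : 0 < c) : ∀ᶠ n in atTop, ∀ q, ∫⁻ x in dQ n q, w x ≤ ENNReal.ofReal (G n / c / 4 ^ n) := by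
  filter_upwards [ht.eventually_ge_atTop (N * c)] with n hn q
  refine (lintegral_mono hw).trans ?_
  rw [setLIntegral_const, vol_dQ, ← ENNReal.ofReal_natCast, ← ENNReal.ofReal_mul N.cast_nonneg,
    mul_one_div]
  exact ENNReal.ofReal_le_ofReal
    (div_le_div_of_nonneg_right ((le_div_iff₀ hc).2 hn) (by positivity))

/-- A state with a bounded weight and a gain `p.2.2`. -/
def Sp (G : ℕ → ℝ) (l : ℕ) (m₀ : ℝ≥0∞) (j : ℕ) (p : (ℂ → ℝ≥0∞) × Set ℂ × (ℕ → ℝ)) : Prop :=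
  St (fun n => G n / p.2.2 n) l m₀ p.1 p.2.1 ∧ (∃ N : ℕ, ∀ x, p.1 x ≤ N) ∧
    ∀ᶠ n in atTop, p.2.2 n = j + 1

lemma Sig_step (ht : Tendsto G atTop atTop) {j : ℕ} {p : (ℂ → ℝ≥0∞) × Set ℂ × (ℕ → ℝ)}
    (h : Sp G l m₀ j p) {O : Set ℂ} (hO : IsOpen O) (hX : PX G O) :
    ∃ p', Sp G l m₀ (j + 1) p' ∧ closure p'.2.1 ⊆ p.2.1 ∧ p'.2.1 ⊆ O ∧ p.2.2 ≤ p'.2.2 := by
  obtain ⟨w, Ω, a⟩ := p
  obtain ⟨h1, ⟨N, h2⟩, h4⟩ := h
  have hc : (0 : ℝ) < (j + 1 : ℕ) + 1 := by positivity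
  obtain ⟨k, hk⟩ := eventually_atTop.1 (h4.and (Sig_bd ht h2 hc))
  let a' : ℕ → ℝ := fun n => if n < k then a n else (j + 1 : ℕ) + 1
  have e : ∀ᶠ n in atTop, a' n = (j + 1 : ℕ) + 1 := by
    filter_upwards [eventually_ge_atTop k] with n hn using if_neg hn.not_gt
  have h5 : St (fun n => G n / a' n) l m₀ w Ω :=
    ⟨h1.op, h1.bd, ⟨h1.wt.meas, h1.wt.supp, fun n hn q => by
      by_cases hnk : n < k
      · simp only [a', if_pos hnk]
        exact h1.wt.adm n hn q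
      · simp only [a', if_neg hnk]
        exact (hk n (not_lt.1 hnk)).2 q⟩, h1.mass⟩
  obtain ⟨w', Ω', h6, h7, h8⟩ := step h5 hO (Sig_px hc hX (e.mono fun n hn => by rw [hn]))
  obtain ⟨N', w₁, m1, le1, le2, -, ma⟩ := trunc h6
  refine ⟨(w₁, Ω', a'), ⟨⟨h6.op, h6.bd, ⟨m1, fun x hx => h6.wt.supp x
    fun e => hx (le_zero_iff.1 (e ▸ le1 x)), fun n hn q =>
      (lintegral_mono le1).trans (h6.wt.adm n hn q)⟩, ma⟩, ⟨N', le2⟩, e⟩, h7, h8, fun n => ?_⟩
  show a n ≤ a' n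
  by_cases hnk : n < k
  · simp only [a', if_pos hnk, le_refl]
  · simp only [a', if_neg hnk]
    have h9 : a n = j + 1 := (hk n (not_lt.1 hnk)).1
    rw [h9]
    push_cast
    linarith

theorem Sig_big (hm : Monotone G) (ht : Tendsto G atTop atTop)
    (h0 : Tendsto (fun n => G n / 4 ^ n) atTop (𝓝 0)) (hp : ∀ n, 0 < G n)
    (hg : ∀ n, l ≤ n → ∀ d ∈ Ioc (0 : ℝ) (1 / 2 ^ n), G n ≤ g d)
    {O : ℕ → Set ℂ} (hO : ∀ i, IsOpen (O i) ∧ PX G (O i)) {U : Set ℂ} (hU : IsOpen U)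
    (hne : U.Nonempty) {A : ℕ → Set ℂ} (hA : ∀ n, haus g (A n) ≠ ⊤) :
    ¬ (⋂ i, O i) ∩ U ⊆ ⋃ n, A n := by
  classical
  intro hc
  obtain ⟨u, hu⟩ := hne
  obtain ⟨ρ, hρ, hb⟩ := Metric.isOpen_iff.1 hU u hu
  obtain ⟨k, hk⟩ := (Big_small hρ).exists
  have hq := meas_dQ k (ix k u.re, ix k u.im)
  obtain ⟨m₀, m1, m2⟩ := exists_between (ENNReal.ofReal_pos.2
    (show 0 < G l * (1 / 4 ^ k) from mul_pos (hp l) (by positivity)))
  have hI : Sp G l m₀ 0 ((dQ k (ix k u.re, ix k u.im)).indicator fun _ => ENNReal.ofReal (G l),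
      ball u ρ, fun _ => 1) := by
    refine ⟨⟨isOpen_ball, isBounded_ball, ⟨measurable_const.indicator hq, fun x hx => ?_,
      fun j hj q => ?_⟩, ?_⟩, ⟨⌈G l⌉₊, fun x =>
        (indicator_le_self _ (fun _ => ENNReal.ofReal (G l)) x).trans ?_⟩,
      Eventually.of_forall fun _ => by simp⟩
    · exact mem_ball_iff_norm.2 ((dQ_dist (mem_of_indicator_ne_zero
        (f := fun _ => ENNReal.ofReal (G l)) hx) rfl).trans_lt hk)
    · refine (lintegral_mono (indicator_le_self _ _)).trans ?_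
      rw [setLIntegral_const, vol_dQ, ← ENNReal.ofReal_mul (hp l).le, mul_one_div, div_one]
      exact ENNReal.ofReal_le_ofReal (div_le_div_of_nonneg_right (hm hj) (by positivity))
    · rwa [lintegral_indicator_const hq, vol_dQ, ← ENNReal.ofReal_mul (hp l).le]
    · rw [← ENNReal.ofReal_natCast]
      exact ENNReal.ofReal_le_ofReal (Nat.le_ceil _)
  choose! F hF using fun (i : ℕ) p (hp : Sp G l m₀ i p) => Sig_step ht hp (hO i).1 (hO i).2
  let s : ℕ → (ℂ → ℝ≥0∞) × Set ℂ × (ℕ → ℝ) := fun i => i.rec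
    ((dQ k (ix k u.re, ix k u.im)).indicator fun _ => ENNReal.ofReal (G l), ball u ρ, fun _ => 1) F
  have hs : ∀ i, Sp G l m₀ i (s i) := fun i => i.rec hI fun i ih => (hF i _ ih).1
  have h1 : ∀ i, closure (s (i + 1)).2.1 ⊆ (s i).2.1 := fun i => (hF i _ (hs i)).2.1
  have h2 : ∀ i, (s (i + 1)).2.1 ⊆ O i := fun i => (hF i _ (hs i)).2.2.1
  have h3 : Monotone fun i => (s i).2.2 := monotone_nat_of_le_succ fun i => (hF i _ (hs i)).2.2.2
  let μ : OuterMeasure ℂ := OuterMeasure.ofFunction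
    (fun U => if IsOpen U then ⨆ i, ∫⁻ x in U, (s i).1 x else ⊤) (by simp)
  have lo : m₀ ≤ μ ((⋂ i, O i) ∩ ball u ρ) := by
    rw [OuterMeasure.ofFunction_apply]
    refine le_iInf₂ fun t ht' => ?_
    by_cases ho : ∀ n, IsOpen (t n)
    · obtain ⟨i, hi⟩ := exists_subset_nhds_of_isCompact' (V := fun i => closure (s (i + 1)).2.1)
        (U := ⋃ n, t n) (antitone_nat_of_succ_le fun i => (h1 _).trans subset_closure).directed_ge
        (fun i => (hs (i + 1)).1.bd.isCompact_closure) (fun i => isClosed_closure) fun x hx =>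
        (isOpen_iUnion ho).mem_nhds (ht' ⟨mem_iInter.2 fun i => h2 i (h1 _ (mem_iInter.1 hx (i + 1))),
          h1 0 (mem_iInter.1 hx 0)⟩)
      refine (hs (i + 1)).1.mass.le.trans ?_
      rw [← setLIntegral_eq_of_support_subset fun x hx =>
        hi (subset_closure ((hs (i + 1)).1.wt.supp x hx))]
      refine (lintegral_iUnion_le _ _).trans (ENNReal.tsum_le_tsum fun n => ?_)
      rw [if_pos (ho n)]
      exact le_iSup (fun i => ∫⁻ x in t n, (s i).1 x) (i + 1)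
    · obtain ⟨n, hn⟩ := not_forall.1 ho
      refine le_trans ?_ (ENNReal.le_tsum n)
      rw [if_neg hn]
      exact le_top
  have up : ∀ M : ℕ, ∀ᶠ n in atTop, ∀ i q,
      ∫⁻ x in dQ n q, (s i).1 x ≤ ENNReal.ofReal (G n / (M + 1) / 4 ^ n) := fun M => by
    have e1 : ∀ᶠ n in atTop, ∀ i ∈ Finset.range M, ∀ q,
        ∫⁻ x in dQ n q, (s i).1 x ≤ ENNReal.ofReal (G n / (M + 1) / 4 ^ n) :=
      (eventually_all_finset _).2 fun i _ => by
        obtain ⟨N, hN⟩ := (hs i).2.1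
        exact Sig_bd ht hN (by positivity)
    filter_upwards [e1, (hs M).2.2, eventually_ge_atTop l] with n e1 e2 e3 i q
    rcases lt_or_ge i M with h | h
    · exact e1 i (Finset.mem_range.2 h) q
    · refine ((hs i).1.wt.adm n e3 q).trans (ENNReal.ofReal_le_ofReal ?_)
      exact div_le_div_of_nonneg_right (div_le_div_of_nonneg_left (hp n).le (by positivity)
        (e2.ge.trans (h3 h n))) (by positivity)
  have z : ∀ n, μ (A n) = 0 := fun n => by
    by_contra hz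
    obtain ⟨M, hM⟩ := ENNReal.exists_nat_mul_gt hz
      (ENNReal.mul_ne_top (by simp : (100 : ℝ≥0∞) ≠ ⊤) (hA n))
    obtain ⟨K, hK⟩ := eventually_atTop.1 ((up M).and (eventually_ge_atTop l))
    have h4 := Sig_le (l := K) (ENNReal.ofReal ((M : ℝ) + 1) • μ) h0 (fun n => (hp n).le)
      (fun n hn => hg n (hK n hn).2) (fun m hm x => by
        have h5 : μ (ball x (2 / 2 ^ m)) ≤ 25 * ENNReal.ofReal (G m / (M + 1) / 4 ^ m) :=
          (OuterMeasure.ofFunction_le _).trans (by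
            rw [if_pos isOpen_ball]
            exact iSup_le fun i => Big_ball (G := fun n => G n / (M + 1)) (l := K)
              ⟨(hs i).1.wt.meas, (hs i).1.wt.supp, fun n hn q => (hK n hn).1 i q⟩ hm x)
        rw [smul_apply, smul_eq_mul]
        refine (mul_le_mul_right h5 _).trans (le_of_eq ?_)
        rw [mul_left_comm, ← ENNReal.ofReal_mul (by positivity)]
        congr 2
        field_simp) (A n)
    rw [smul_apply, smul_eq_mul] at h4
    refine hM.not_ge (le_trans (mul_le_mul_left ?_ _) h4)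
    rw [← ENNReal.ofReal_natCast]
    exact ENNReal.ofReal_le_ofReal (by linarith)
  have h4 := lo.trans (measure_mono ((inter_subset_inter_right _ hb).trans hc))
  rw [measure_iUnion_null z] at h4
  exact m1.not_ge h4

theorem Sig_huge {r₀ : ℝ} (h0 : 0 < r₀) (ha : AntitoneOn g (Ioo 0 r₀)) (hp : ∀ r ∈ Ioo 0 r₀, 0 < g r) {C : ℝ}
    (hC : 0 < C) (hs : Summable fun m : ℕ => Real.exp (-(C * (g (1 / 2 ^ 3 ^ m) / 3 ^ m)))) :
    Huge g := by
  classical
  obtain ⟨G, l, hG, h4, hg⟩ := Fin_gau h0 ha hp hC hs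
  intro f hf
  set F : ℂ → ℂ := piecewise {w : ℂ | 0 < w.im} (fun w => f (exp (w * I))) fun _ => 0 with hFd
  have hH : IsOpen {w : ℂ | 0 < w.im} := isOpen_lt (by fun_prop) (by fun_prop)
  have hF0 : DifferentiableOn ℂ (fun w => f (exp (w * I))) {w | 0 < w.im} := by
    refine hf.comp (Differentiable.differentiableOn (by fun_prop)) fun w hw => ?_
    rw [mem_ball_zero_iff, norm_exp, Real.exp_lt_one_iff]
    simpa using hw
  have he : ∀ w : ℂ, 0 < w.im → F w = f (exp (w * I)) := fun w hw =>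
    piecewise_eq_of_mem _ _ _ hw
  have hF : DifferentiableOn ℂ F {w | 0 < w.im} := hF0.congr he
  have hm : Measurable F :=
    hF0.continuousOn.measurable_piecewise continuousOn_const hH.measurableSet
  have hT : ∀ t : ℝ, NT F t → TypeA f (exp (t * I)) := fun t h => typeA_of_NT fun C hC => by
    obtain ⟨L, hL⟩ := h C hC
    refine ⟨L, hL.congr' ?_⟩
    filter_upwards [self_mem_nhdsWithin] with z hz
    exact he z (im_pos_of_cone (by linarith only [hC]) hz)
  rcases (hF.analyticOnNhd hH).is_constant_or_isOpen (convex_halfSpace_im_gt 0).isPreconnected with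
    ⟨w, hw⟩ | ho
  · refine Eventually.of_forall fun t => Or.inl (hT t fun C hC => ⟨w, tendsto_const_nhds.congr' ?_⟩)
    filter_upwards [self_mem_nhdsWithin] with z hz
    exact (hw z (im_pos_of_cone (by linarith) hz)).symm
  have key : ∀ a k : ℕ, ∃ O : ℝ → Set ℂ, (∀ t, IsOpen (O t) ∧ O t ⊆ f '' stolz (exp (t * I))
      (1 + 1 / ((a : ℝ) + 1)) (1 / ((k : ℝ) + 1))) ∧ ∀ᵐ t : ℝ, NT F t ∨ PX G (O t) := by
    intro a k
    obtain ⟨C₁, η, h1, h2, h3⟩ := cone_to_stolz (C := 1 + 1 / ((a : ℝ) + 1))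
      (lt_add_of_pos_right _ (by positivity)) (δ := 1 / ((k : ℝ) + 1)) (by positivity)
    obtain ⟨δ, d0, d1, d2⟩ : ∃ δ : ℝ, 0 < δ ∧ δ ≤ 1 / 2 ∧ 1 + 5 * δ ≤ C₁ :=
      ⟨min (1 / 2) ((C₁ - 1) / 5), lt_min (by norm_num) (by linarith only [h1]), min_le_left _ _,
        by linarith only [min_le_right (1 / 2) ((C₁ - 1) / 5)]⟩
    have h5 : ∀ t, IsOpen (F '' cone t (1 + 5 * δ) η) := fun t =>
      ho _ (fun z hz => im_pos_of_cone (by linarith only [d0, d1]) hz) (isOpen_cone _ _ _)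
    refine ⟨fun t => F '' cone t (1 + 5 * δ) η, fun t => ⟨h5 t, ?_⟩,
      px hG ⟨hF, hm, d0, d1⟩ h2 fun t => (h5 t).measurableSet⟩
    rintro _ ⟨z, hz, rfl⟩
    exact ⟨_, h3 t z (cone_mono (by linarith only [d0, d1]) d2 le_rfl hz),
      (he z (im_pos_of_cone (by linarith only [d0, d1]) hz)).symm⟩
  choose O hO hX using key
  filter_upwards [ae_all_iff.2 fun a => ae_all_iff.2 (hX a)] with t ht
  by_cases hN : NT F t
  · exact Or.inl (hT t hN)
  refine Or.inr fun C δ hC hδ U hU hne A hA hc => ?_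
  obtain ⟨a, h1⟩ := exists_nat_one_div_lt (sub_pos.2 hC)
  refine Sig_big hG.mono hG.tendsto h4 hG.pos hg
    (O := fun k => O a k t) (fun k => ⟨(hO a k t).1, (ht a k).resolve_left hN⟩) hU hne hA
    ((inter_subset_inter_left _ fun w hw => ?_).trans hc)
  exact mem_vals (norm_exp_ofReal_mul_I t) (by linarith only [h1]) hδ fun k =>
    (hO a k t).2 (mem_iInter.1 hw k)

end Pool.Agent.Work.MP_31144c_an.G
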